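import Pool.Agent.H920R2.Fol7

set_option autoImplicit false

open AlgebraicGeometry CategoryTheory MvPolynomial Pool.Agent.H920R2

universe u

namespace Pool.Agent.Results.MP_19ffc6_ag.LinearFoliation

/-- The linear vector field `∑ i j, M i j * X j * ∂/∂(X i)` on affine `n`-space over `k`. -/
noncomputable def field {k : Type u} [Field k] {n : ℕ} (M : Matrix (Fin n) (Fin n) k) :
    Derivation k (MvPolynomial (Fin n) k) (MvPolynomial (Fin n) k) :=
  mkDerivation k fun i => ∑ j, C (M i j) * X j

/-- The algebra of constants of the vector field: the polynomials `f` with `field M f = 0`. -/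
noncomputable def constants {k : Type u} [Field k] {n : ℕ} (M : Matrix (Fin n) (Fin n) k) :
    Subalgebra k (MvPolynomial (Fin n) k) where
  carrier := {f | field M f = 0}
  mul_mem' := (kerAlg (field M)).mul_mem'
  add_mem' := (kerAlg (field M)).add_mem'
  algebraMap_mem' := (kerAlg (field M)).algebraMap_mem'

/-- The quotient of affine `n`-space over `k` by the linear vector field. -/
noncomputable def quot {k : Type u} [Field k] {n : ℕ} (M : Matrix (Fin n) (Fin n) k) :
    Scheme.{u} := Spec (CommRingCat.of (constants M))

/-- The structure morphism of the quotient. -/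
noncomputable def quotStr {k : Type u} [Field k] {n : ℕ} (M : Matrix (Fin n) (Fin n) k) :
    quot M ⟶ Spec (CommRingCat.of k) :=
  Spec.map (CommRingCat.ofHom (algebraMap k (constants M)))

/-- Let `k` be a field of characteristic `p`. The quotient of affine `n`-space over `k` by an
arbitrary `p`-closed linear vector field is a variety and has a resolution of singularities. -/
theorem result (p : ℕ) [Fact p.Prime] (k : Type u) [Field k] [CharP k p] (n : ℕ)
    (M : Matrix (Fin n) (Fin n) k) (c : k) (hM : M ^ p = c • M) :
    IsVariety (quotStr M) ∧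
    ∃ (Y : Scheme.{u}) (π : Y ⟶ quot M),
      AlgebraicGeometry.IsIntegral Y ∧ AlgebraicGeometry.IsProper π ∧
      AlgebraicGeometry.Smooth (π ≫ quotStr M) ∧
      ∃ U : (quot M).Opens, Dense (U : Set (quot M)) ∧ IsIso (π ∣_ U) := by
  have hp : p.Prime := Fact.out
  have hpk : (p : k) = 0 := CharP.cast_eq_zero k p
  have h1 : Algebra.FiniteType k (constants M) := finiteType_kerAlg hp hpk (field M)
  exact ⟨isVariety_spec, hasResolution_linDer hp hpk M c hM⟩

end Pool.Agent.Results.MP_19ffc6_ag.LinearFoliation
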