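import Pool.Agent.H920R2.Flag5
import Pool.Agent.H920R2.Quot

set_option autoImplicit false

open AlgebraicGeometry CategoryTheory Pool.Agent.H920R2

universe u

namespace Pool.Agent.Results.MP_19ffc6_ag.QuotientLower

/-- For every finite field `F`, every field `k` containing `F`, all `n` and `m ≥ 1` and all
subgroups `H r` of the multiplicative group of `F`, the quotient of the space of `n × m` matrices
over `k` by the group of lower triangular invertible matrices over `F` with diagonal entries in
the `H r` is a variety over `k` and has a resolution of singularities. -/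
theorem result (F : Type) [Field F] [Finite F] (k : Type u) [Field k] [Algebra F k]
    (n m : ℕ) (hm : 0 < m) (H : Fin n → Subgroup Fˣ) :
    IsVariety (quotStr F k n m (lowerGroup F n H)) ∧
    ∃ (Y : Scheme.{u}) (π : Y ⟶ quot F k n m (lowerGroup F n H)),
      AlgebraicGeometry.IsIntegral Y ∧ AlgebraicGeometry.IsProper π ∧
      AlgebraicGeometry.Smooth (π ≫ quotStr F k n m (lowerGroup F n H)) ∧
      ∃ U : (quot F k n m (lowerGroup F n H)).Opens,
        Dense (U : Set (quot F k n m (lowerGroup F n H))) ∧ IsIso (π ∣_ U) := by
  have : Fintype F := Fintype.ofFinite F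
  exact ⟨quot_isVariety F k n m _, hasResolution_lower F k n m hm H⟩

end Pool.Agent.Results.MP_19ffc6_ag.QuotientLower
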