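import Pool.Agent.H920R2.Cv4

set_option autoImplicit false

open AlgebraicGeometry CategoryTheory TensorProduct Pool.Agent.H920R2

universe u

namespace Pool.Agent.Results.MP_19ffc6_ag.VectorFieldProducts

variable {k : Type u} [Field k] {n : ℕ} {A : Fin n → Type u} [∀ i, CommRing (A i)]
  [∀ i, Algebra k (A i)]

/-- The sum `∑ i, id ⊗ … ⊗ D i ⊗ … ⊗ id` of derivations `D i` of the algebras `A i`, as an
endomorphism of `⨂ A_i`. -/
noncomputable def diagField (D : ∀ i, Derivation k (A i) (A i)) :
    (⨂[k] i, A i) →ₗ[k] (⨂[k] i, A i) :=
  ∑ i, PiTensorProduct.map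
    (Function.update (fun l => (LinearMap.id : A l →ₗ[k] A l)) i (D i : A i →ₗ[k] A i))

theorem diagField_tprod (D : ∀ i, Derivation k (A i) (A i)) (a : ∀ i, A i) :
    diagField D (PiTensorProduct.tprod k a) =
      ∑ i, PiTensorProduct.tprod k (Function.update a i (D i (a i))) := by
  unfold diagField
  rw [LinearMap.sum_apply]
  refine Finset.sum_congr rfl fun i _ => ?_
  rw [PiTensorProduct.map_tprod]
  congr 1
  funext l
  by_cases hl : l = i
  · subst hl
    rw [Function.update_self, Function.update_self]
    rfl
  · rw [Function.update_of_ne hl, Function.update_of_ne hl]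
    rfl

theorem exists_derivation (D : ∀ i, Derivation k (A i) (A i)) :
    ∃ E : Derivation k (⨂[k] i, A i) (⨂[k] i, A i),
      (∀ i a, E (PiTensorProduct.singleAlgHom (R := k) (A := A) i a) =
        PiTensorProduct.singleAlgHom (R := k) (A := A) i (D i a)) ∧
      ∀ f, E f = diagField D f := by
  obtain ⟨E, hE⟩ := exists_der_coprod (isCoprod_pi (k := k) (A := A)) D
  refine ⟨E, hE, fun f => ?_⟩
  have h1 : (E : (⨂[k] i, A i) →ₗ[k] (⨂[k] i, A i)) = diagField D := by
    apply PiTensorProduct.ext
    apply MultilinearMap.ext
    intro a
    change E (PiTensorProduct.tprod k a) = diagField D (PiTensorProduct.tprod k a)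
    rw [diagField_tprod, der_tprod D E hE]
  exact congrArg (fun φ : (⨂[k] i, A i) →ₗ[k] (⨂[k] i, A i) => φ f) h1

theorem diagField_mul (D : ∀ i, Derivation k (A i) (A i)) {f g : ⨂[k] i, A i}
    (hf : diagField D f = 0) (hg : diagField D g = 0) : diagField D (f * g) = 0 := by
  obtain ⟨E, -, hE⟩ := exists_derivation D
  rw [← hE, Derivation.leibniz, hE, hE, hf, hg, smul_zero, smul_zero, add_zero]

theorem diagField_add (D : ∀ i, Derivation k (A i) (A i)) {f g : ⨂[k] i, A i}
    (hf : diagField D f = 0) (hg : diagField D g = 0) : diagField D (f + g) = 0 := by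
  rw [map_add, hf, hg, add_zero]

theorem diagField_algebraMap (D : ∀ i, Derivation k (A i) (A i)) (r : k) :
    diagField D (algebraMap k (⨂[k] i, A i) r) = 0 := by
  obtain ⟨E, -, hE⟩ := exists_derivation D
  rw [← hE, Derivation.map_algebraMap]

/-- The algebra of constants of the vector field: the elements `f` with `diagField D f = 0`. -/
noncomputable def constants (D : ∀ i, Derivation k (A i) (A i)) : Subalgebra k (⨂[k] i, A i) where
  carrier := {f | diagField D f = 0}
  mul_mem' := diagField_mul D
  add_mem' := diagField_add D
  algebraMap_mem' := diagField_algebraMap D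

/-- The quotient of the product of the `Spec (A i)` by the vector field. -/
noncomputable def quot (D : ∀ i, Derivation k (A i) (A i)) : Scheme.{u} :=
  Spec (CommRingCat.of (constants D))

/-- The structure morphism of the quotient. -/
noncomputable def quotStr (D : ∀ i, Derivation k (A i) (A i)) :
    quot D ⟶ Spec (CommRingCat.of k) :=
  Spec.map (CommRingCat.ofHom (algebraMap k (constants D)))

/-- Let `p` be a prime, `k` a perfect field of characteristic `p`, and `A i` finitely many
Dedekind domains which are smooth over `k` and not fields (smooth affine curves), whose tensor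
product is a domain, which is automatic if `k` is algebraically closed. Let `D i` be derivations
of the `A i` over `k` with `(D i) ^ p = c * D i`, where `c` is an element of `k` independent of
`i`. Then the quotient of the product of the curves by the vector field `∑ i, D i` is a variety
and has a resolution of singularities. -/
theorem result (p : ℕ) [Fact p.Prime] (k : Type u) [Field k] [CharP k p] [PerfectField k] (n : ℕ)
    (A : Fin n → Type u) [∀ i, CommRing (A i)] [∀ i, IsDedekindDomain (A i)]
    [∀ i, Algebra k (A i)] [∀ i, Algebra.Smooth k (A i)] (hA : ∀ i, ¬ IsField (A i))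
    (hdom : IsAlgClosed k ∨ IsDomain (⨂[k] i, A i))
    (D : ∀ i, Derivation k (A i) (A i)) (c : k) (hD : ∀ i a, (D i)^[p] a = c • D i a) :
    IsVariety (quotStr D) ∧
    ∃ (Y : Scheme.{u}) (π : Y ⟶ quot D),
      AlgebraicGeometry.IsIntegral Y ∧ AlgebraicGeometry.IsProper π ∧
      AlgebraicGeometry.Smooth (π ≫ quotStr D) ∧
      ∃ U : (quot D).Opens, Dense (U : Set (quot D)) ∧ IsIso (π ∣_ U) := by
  have hp : p.Prime := Fact.out
  have hpk : (p : k) = 0 := CharP.cast_eq_zero k p
  have hdomB : IsDomain (⨂[k] i, A i) := by
    rcases hdom with h | h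
    · exact isDomain_pi n A
    · exact h
  have hj := isCoprod_pi (k := k) (A := A)
  obtain ⟨E, hE, hEf⟩ := exists_derivation D
  have hker : constants D = kerAlg E := by
    ext f
    change diagField D f = 0 ↔ E f = 0
    rw [hEf]
  have hft : Algebra.FiniteType k (⨂[k] i, A i) := coprod_finiteType hj fun i => inferInstance
  have hres := hasResolution_curvesD hp hpk hj (fun i => single_injective i)
    (fun i => inferInstance) (fun i => inferInstance) (c := c)
    (fun i a => by rw [hD, Algebra.smul_def]) hA hE
  have hftI : Algebra.FiniteType k (constants D) := by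
    rw [hker]
    exact finiteType_kerAlg hp hpk E
  refine ⟨isVariety_spec, ?_⟩
  have hres' : HasResolution (X := Spec (CommRingCat.of (constants D)))
      (Spec.map (CommRingCat.ofHom (algebraMap k (constants D)))) := by
    rw [hker]
    exact hres
  exact hres'

end Pool.Agent.Results.MP_19ffc6_ag.VectorFieldProducts
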