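import Pool.Agent.H920R2.We4
import Pool.Agent.H920R2.Fol7

/-!
MP_19ffc6_ag: resolution of the quotients of smooth affine varieties by `p`-closed vector fields
whose leading form along a regular weighted centre has no zeros outside the centre.
-/

set_option autoImplicit false

open AlgebraicGeometry CategoryTheory Pool.Agent.H920R2

universe u

namespace Pool.Agent.Results.MP_19ffc6_ag.WeightedCentreField

section defs

variable {k B : Type u} [Field k] [CommRing B] [Algebra k B] (D : Derivation k B B)

/-- The ring of constants of a derivation. -/
def constants : Subalgebra k B where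
  carrier := {b | D b = 0}
  mul_mem' := by
    intro a b (ha : D a = 0) (hb : D b = 0)
    change D (a * b) = 0
    rw [Derivation.leibniz, ha, hb, smul_zero, smul_zero, add_zero]
  add_mem' := by
    intro a b (ha : D a = 0) (hb : D b = 0)
    change D (a + b) = 0
    rw [map_add, ha, hb, add_zero]
  algebraMap_mem' := fun r => D.map_algebraMap r

/-- The quotient of `Spec B` by a vector field. -/
noncomputable def quot : Scheme.{u} := Spec (CommRingCat.of (constants D))

/-- The structure morphism of the quotient. -/
noncomputable def quotStr : quot D ⟶ Spec (CommRingCat.of k) :=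
  Spec.map (CommRingCat.ofHom (algebraMap k (constants D)))

/-- The elements which are, up to higher order, combinations of leading forms of the derivatives
`D c`: the ideal generated by `F (m + 1)` and the products `b * D c` with `c` of weight `e` and `b`
of weight `m - (e + l)`. -/
def leading (F : ℕ → Ideal B) (l m : ℕ) : Ideal B :=
  F (m + 1) ⊔ Ideal.span {y | ∃ e, ∃ c ∈ F e, ∃ b ∈ F (m - (e + l)), y = b * D c}

end defs

/-- Let `X = Spec B` be a smooth affine variety over a field `k` of characteristic `p`, `D` a
`p`-closed vector field on `X`, that is `D ^ p = φ D` for some rational function `φ`, and `F` a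
regular weighted centre on `X`, such that

* `D` raises the weight of every element by `l ≥ 0`,
* the zeros of `D` lie in the centre,
* the leading form of `D` has no zeros on the weighted normal cone outside its vertex, that is,
  every element `a` of weight `d > 0` has a power `a ^ N` which is, up to elements of weight larger
  than `N * d`, a combination of the leading forms of the derivatives `D c`.

Then the quotient of `X` by `D` has a resolution of singularities. -/
theorem result (p : ℕ) [Fact p.Prime] (k : Type u) [Field k] [CharP k p] (B : Type u)
    [CommRing B] [IsDomain B] [Algebra k B] [Algebra.Smooth k B] (D : Derivation k B B)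
    (φ : FractionRing B) (hD : ∀ b, algebraMap B (FractionRing B) (D^[p] b) =
      φ * algebraMap B (FractionRing B) (D b))
    (F : ℕ → Ideal B) (hF : RegularWeightedCentre k F) (hne : F 1 ≠ ⊥) (l : ℕ)
    (hdiv : ∀ d, ∀ a ∈ F d, D a ∈ F (d + l))
    (hfix : ∀ P : Ideal B, P.IsPrime → (∀ a, D a ∈ P) → F 1 ≤ P)
    (hlead : ∀ d, 1 ≤ d → ∀ a ∈ F d, ∃ N : ℕ, a ^ N ∈ leading D F l (N * d)) :
    IsVariety (quotStr D) ∧
    ∃ (Y : Scheme.{u}) (π : Y ⟶ quot D),
      AlgebraicGeometry.IsIntegral Y ∧ AlgebraicGeometry.IsProper π ∧
      AlgebraicGeometry.Smooth (π ≫ quotStr D) ∧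
      ∃ U : (quot D).Opens, Dense (U : Set (quot D)) ∧ IsIso (π ∣_ U) := by
  have hp : p.Prime := Fact.out
  have hpk : (p : k) = 0 := CharP.cast_eq_zero k p
  have hker : constants D = kerAlg D := by
    ext f
    rfl
  have hft : Algebra.FiniteType k (constants D) := by
    rw [hker]
    exact finiteType_kerAlg hp hpk D
  refine ⟨isVariety_spec, ?_⟩
  have hres : HasResolution (X := Spec (CommRingCat.of (constants D)))
      (Spec.map (CommRingCat.ofHom (algebraMap k (constants D)))) := by
    rw [hker]
    exact hasResolution_centre_fol hp hpk inferInstance D φ hD hF hne hdiv hfix hlead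
  exact hres

end Pool.Agent.Results.MP_19ffc6_ag.WeightedCentreField
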